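import Pool.Agent.Helper35.HS3.GoalsC

/-!
# The function `H(u)` is subharmonic and `1`-Lipschitz
-/

namespace Pool.Agent.Helper34.HS3.PSI

open MeasureTheory Set Filter Topology Metric
open scoped ContDiff
open Pool.Agent.Helper35.HS3

theorem proof : PSI_stmt := by
  intro f a A K u c J H hN hu hl hJ huJ hq hg hH
  have fc : Continuous f := hN.smooth.continuous
  set q : ℝ → ℝ := fun t => c + 2 * Fp f a t with hqdef
  have hqd : ∀ t, HasDerivAt q (2 * f t) t := by
    intro t
    have h1 : HasDerivAt (fun t => ∫ s in a..t, f s) (f t) t :=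
      intervalIntegral.integral_hasDerivAt_right (fc.intervalIntegrable _ _)
        fc.stronglyMeasurable.stronglyMeasurableAtFilter fc.continuousAt
    exact (h1.const_mul 2).const_add c
  have hq1 : ContDiff ℝ 1 q := by
    rw [contDiff_one_iff_deriv]
    refine ⟨fun t => (hqd t).differentiableAt, ?_⟩
    have : deriv q = fun t => 2 * f t := funext fun t => (hqd t).deriv
    rw [this]
    fun_prop
  have hH1 : ContDiffOn ℝ 1 (fun t => 1 / √(q t)) J := by
    intro t ht
    have hqt : 0 < q t := hq t ht
    have : ContDiffAt ℝ 1 (fun t => 1 / √(q t)) t :=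
      contDiffAt_const.div (hq1.contDiffAt.sqrt hqt.ne') (Real.sqrt_pos.2 hqt).ne'
    exact this.contDiffWithinAt
  have hH2 : ContDiffOn ℝ 2 H J := by
    have h := (contDiffOn_succ_iff_deriv_of_isOpen (𝕜 := ℝ) (n := 1) (f := H) hJ).2
      ⟨fun t ht => (hH t ht).differentiableAt.differentiableWithinAt, by simp, ?_⟩
    · exact h.of_le (by norm_num)
    · exact hH1.congr fun t ht => (hH t ht).deriv
  have hHu : ContDiff ℝ 2 (fun x => H (u x)) := hH2.comp_contDiff hu huJ
  have hH'' : ∀ t ∈ J, HasDerivAt (fun t => 1 / √(q t)) (-(f t) / (q t * √(q t))) t := by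
    intro t ht
    have hqt : 0 < q t := hq t ht
    have hs : 0 < √(q t) := Real.sqrt_pos.2 hqt
    have h := ((hqd t).sqrt hqt.ne').inv hs.ne'
    have e : (fun t => 1 / √(q t)) = (fun t => √(q t))⁻¹ := by
      funext t; simp [one_div]
    rw [e]
    refine h.congr_deriv ?_
    have hsq : √(q t) ^ 2 = q t := Real.sq_sqrt hqt.le
    rw [hsq]
    field_simp
  refine ⟨hHu, ?_, ?_⟩
  · intro x
    have hx := huJ x
    have hqt : 0 < q (u x) := hq _ hx
    have hs : 0 < √(q (u x)) := Real.sqrt_pos.2 hqt
    have h := lap_comp (H := H) (H' := fun t => 1 / √(q t)) (H'' := -(f (u x)) / (q (u x) * √(q (u x))))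
      (u := u) (x := x) (by
        filter_upwards [hJ.mem_nhds hx] with t ht
        exact hH t ht) (hH'' _ hx) hu.contDiffAt
    rw [h, hl x]
    have hg' : gsq u x ≤ q (u x) := hg x
    have hf := hN.nonneg (u x)
    have e : 1 / √(q (u x)) * f (u x) + -f (u x) / (q (u x) * √(q (u x))) * gsq u x =
        f (u x) / (q (u x) * √(q (u x))) * (q (u x) - gsq u x) := by
      field_simp
      ring
    show 0 ≤ 1 / √(q (u x)) * f (u x) + -f (u x) / (q (u x) * √(q (u x))) * gsq u x
    rw [e]
    exact mul_nonneg (by positivity) (by linarith)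
  · intro x
    have hx := huJ x
    have hqt : 0 < q (u x) := hq _ hx
    have hs : 0 < √(q (u x)) := Real.sqrt_pos.2 hqt
    have hpd : ∀ i : Fin 3, pd i (fun y => H (u y)) x = 1 / √(q (u x)) * pd i u x := fun i =>
      pd_comp (hH _ hx) (diff_of_two hu x)
    have e : gsq (fun y => H (u y)) x = gsq u x / q (u x) := by
      unfold gsq
      rw [Finset.sum_div]
      refine Finset.sum_congr rfl fun i _ => ?_
      rw [hpd i, mul_pow, div_pow, one_pow, Real.sq_sqrt hqt.le]
      ring
    rw [e, div_le_one hqt]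
    exact hg x

end Pool.Agent.Helper34.HS3.PSI
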